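import Pool.Agent.Q276.BA.Stm

/-!
# Project BA (helper276), jobs A12 and A34: the kernels
-/

set_option autoImplicit false

open MeasureTheory Set Filter Topology
open scoped BigOperators ENNReal

namespace Pool.Agent.Q190.BA

open Pool.Agent.Q276.BA

/-- the product over the other nodes -/
theorem prod_nodes (N l : ℕ) (hl : l < N) :
    ∏ j ∈ (Finset.range N).erase l, ((j : ℝ) - l) = (-1) ^ l * (l.factorial : ℝ) * ((N - 1 - l).factorial : ℝ) := by
  obtain ⟨m, rfl⟩ : ∃ m, N = (l + 1) + m := ⟨N - (l + 1), by omega⟩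
  have e1 : ∏ j ∈ (Finset.range (l + 1 + m)).erase l, ((j : ℝ) - l) =
      ∏ j ∈ Finset.range (l + 1 + m), (if j = l then (1 : ℝ) else (j : ℝ) - l) := by
    rw [← Finset.mul_prod_erase (Finset.range (l + 1 + m)) (fun j => if j = l then (1 : ℝ) else (j : ℝ) - l)
      (Finset.mem_range.2 hl), if_pos rfl, one_mul]
    refine Finset.prod_congr rfl fun j hj => ?_
    rw [if_neg (Finset.ne_of_mem_erase hj)]
  rw [e1, Finset.prod_range_add, Finset.prod_range_succ, if_pos rfl, mul_one]
  have e2 : ∏ j ∈ Finset.range l, (if j = l then (1 : ℝ) else (j : ℝ) - l) = (-1) ^ l * (l.factorial : ℝ) := by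
    rw [← Finset.prod_range_reflect]
    have e3 : ∀ j ∈ Finset.range l, (if l - 1 - j = l then (1 : ℝ) else ((l - 1 - j : ℕ) : ℝ) - l) =
        (-1) * ((j + 1 : ℕ) : ℝ) := by
      intro j hj
      have hj' := Finset.mem_range.1 hj
      rw [if_neg (by omega)]
      have : ((l - 1 - j : ℕ) : ℝ) = (l : ℝ) - ((j + 1 : ℕ) : ℝ) := by
        rw [← Nat.cast_sub (by omega)]
        congr 1
        omega
      rw [this]
      ring
    rw [Finset.prod_congr rfl e3, Finset.prod_mul_distrib, Finset.prod_const, Finset.card_range,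
      ← Nat.cast_prod, Finset.prod_range_add_one_eq_factorial]
  have e4 : ∏ j ∈ Finset.range m, (if l + 1 + j = l then (1 : ℝ) else ((l + 1 + j : ℕ) : ℝ) - l) =
      (m.factorial : ℝ) := by
    have e5 : ∀ j ∈ Finset.range m, (if l + 1 + j = l then (1 : ℝ) else ((l + 1 + j : ℕ) : ℝ) - l) =
        ((j + 1 : ℕ) : ℝ) := by
      intro j _
      rw [if_neg (by omega)]
      push_cast
      ring
    rw [Finset.prod_congr rfl e5, ← Nat.cast_prod, Finset.prod_range_add_one_eq_factorial]
  rw [e2, e4]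
  congr 3
  omega

/-- the numerator at a node -/
theorem prod_num (b N l : ℕ) :
    ∏ s ∈ Finset.range N, (-((b : ℝ) + l + 1) - s) =
      (-1) ^ N * ((N.factorial : ℝ) * ((N + b + l).choose N : ℝ)) := by
  have e1 : ∀ s ∈ Finset.range N, (-((b : ℝ) + l + 1) - s) = (-1) * ((b + l + 1 + s : ℕ) : ℝ) := by
    intro s _
    push_cast
    ring
  rw [Finset.prod_congr rfl e1, Finset.prod_mul_distrib, Finset.prod_const, Finset.card_range,
    ← Nat.cast_prod, ← Nat.ascFactorial_eq_prod_range, Nat.ascFactorial_eq_factorial_mul_choose,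
    Nat.cast_mul]
  congr 3
  rw [show b + l + N = N + b + l by omega]

/-- the coefficients are the residues -/
theorem cc_eq (b N l : ℕ) (hl : l < N) :
    cc b N l = (∏ s ∈ Finset.range N, (-((b : ℝ) + l + 1) - s)) *
      ∏ j ∈ (Finset.range N).erase l, ((j : ℝ) - l)⁻¹ := by
  rw [Finset.prod_inv_distrib, prod_nodes N l hl, prod_num]
  obtain ⟨m, rfl⟩ : ∃ m, N = l + m + 1 := ⟨N - (l + 1), by omega⟩
  have e1 : l + m + 1 - 1 = l + m := by omega
  have e2 : l + m + 1 - 1 - l = m := by omega
  unfold cc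
  rw [e2, e1]
  have h1 : (((l + m).choose l : ℕ) : ℝ) * (l.factorial : ℝ) * (m.factorial : ℝ) = ((l + m).factorial : ℝ) := by
    rw [Nat.choose_symm_add]
    exact_mod_cast Nat.add_choose_mul_factorial_mul_factorial l m
  have h2 : (((l + m + 1).factorial : ℕ) : ℝ) = ((l + m + 1 : ℕ) : ℝ) * ((l + m).factorial : ℝ) := by
    exact_mod_cast Nat.factorial_succ (l + m)
  have h3 : (l.factorial : ℝ) ≠ 0 := by exact_mod_cast Nat.factorial_ne_zero l
  have h4 : (m.factorial : ℝ) ≠ 0 := by exact_mod_cast Nat.factorial_ne_zero m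
  have h5 : ((-1 : ℝ) ^ l) ≠ 0 := pow_ne_zero _ (by norm_num)
  have h6 : ((-1 : ℝ) ^ l) * (-1) ^ l = 1 := by rw [← mul_pow]; norm_num
  rw [h2, ← h1, pow_add, ← div_eq_mul_inv, eq_div_iff (by positivity)]
  linear_combination (-1 : ℝ) ^ (l + m + 1) * ((l + m + 1 : ℕ) : ℝ) * ((l + m).choose l : ℝ) *
    ((l + m + 1 + b + l).choose (l + m + 1) : ℝ) * (l.factorial : ℝ) * (m.factorial : ℝ) * h6

/-- partial fractions -/
theorem rat (b N : ℕ) (x : ℝ) (hx : ∀ l < N, x + b + l + 1 ≠ 0) :
    1 + ∑ l ∈ Finset.range N, cc b N l / (x + b + l + 1) =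
      (∏ s ∈ Finset.range N, (x - s)) / ∏ l ∈ Finset.range N, (x + b + l + 1) := by
  set w : ℕ → ℝ := fun l => -((b : ℝ) + l + 1) with hw
  set f : Polynomial ℝ := ∏ s ∈ Finset.range N, (Polynomial.X - Polynomial.C (s : ℝ)) -
    ∏ l ∈ Finset.range N, (Polynomial.X - Polynomial.C (w l)) with hf
  have hm1 : (∏ s ∈ Finset.range N, (Polynomial.X - Polynomial.C (s : ℝ))).Monic :=
    Polynomial.monic_prod_of_monic _ _ fun s _ => Polynomial.monic_X_sub_C _
  have hm2 : (∏ l ∈ Finset.range N, (Polynomial.X - Polynomial.C (w l))).Monic :=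
    Polynomial.monic_prod_of_monic _ _ fun s _ => Polynomial.monic_X_sub_C _
  have hd1 : (∏ s ∈ Finset.range N, (Polynomial.X - Polynomial.C (s : ℝ))).degree = ((N : ℕ) : WithBot ℕ) := by
    rw [Polynomial.degree_prod, Finset.sum_congr rfl (fun s _ => Polynomial.degree_X_sub_C _), Finset.sum_const,
      Finset.card_range]
    simp
  have hd2 : (∏ l ∈ Finset.range N, (Polynomial.X - Polynomial.C (w l))).degree = ((N : ℕ) : WithBot ℕ) := by
    rw [Polynomial.degree_prod, Finset.sum_congr rfl (fun s _ => Polynomial.degree_X_sub_C _), Finset.sum_const,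
      Finset.card_range]
    simp
  have hdeg : f.degree < (Finset.range N).card := by
    rw [Finset.card_range, ← hd1]
    exact Polynomial.degree_sub_lt_left (by rw [hd1, hd2]) hm1.ne_zero (by rw [hm1.leadingCoeff, hm2.leadingCoeff])
  have hinj : Set.InjOn w (Finset.range N : Set ℕ) := by
    intro i _ j _ hij
    have h : -((b : ℝ) + i + 1) = -((b : ℝ) + j + 1) := hij
    have h' : (i : ℝ) = j := by linarith
    exact_mod_cast h'
  have h := congrArg (Polynomial.eval x) (Lagrange.eq_interpolate hinj hdeg)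
  rw [Lagrange.interpolate_apply, Polynomial.eval_finsetSum] at h
  have hY : ∏ l ∈ Finset.range N, (x + b + l + 1) ≠ 0 :=
    Finset.prod_ne_zero_iff.2 fun l hl => hx l (Finset.mem_range.1 hl)
  have hfx : f.eval x = ∏ s ∈ Finset.range N, (x - s) - ∏ l ∈ Finset.range N, (x + b + l + 1) := by
    rw [hf, Polynomial.eval_sub, Polynomial.eval_prod, Polynomial.eval_prod]
    congr 1
    · refine Finset.prod_congr rfl fun s _ => ?_
      rw [Polynomial.eval_sub, Polynomial.eval_X, Polynomial.eval_C]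
    · refine Finset.prod_congr rfl fun s _ => ?_
      rw [Polynomial.eval_sub, Polynomial.eval_X, Polynomial.eval_C, hw]
      ring
  have hterm : ∀ l ∈ Finset.range N,
      (Polynomial.C (f.eval (w l)) * Lagrange.basis (Finset.range N) w l).eval x =
        cc b N l / (x + b + l + 1) * ∏ l ∈ Finset.range N, (x + b + l + 1) := by
    intro l hl
    have hl' := Finset.mem_range.1 hl
    have e1 : f.eval (w l) = ∏ s ∈ Finset.range N, (-((b : ℝ) + l + 1) - s) := by
      rw [hf, Polynomial.eval_sub, Polynomial.eval_prod, Polynomial.eval_prod,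
        Finset.prod_eq_zero hl (f := fun j => Polynomial.eval (w l) (Polynomial.X - Polynomial.C (w j)))
          (by rw [Polynomial.eval_sub, Polynomial.eval_X, Polynomial.eval_C, sub_self]), sub_zero]
      refine Finset.prod_congr rfl fun s _ => ?_
      rw [Polynomial.eval_sub, Polynomial.eval_X, Polynomial.eval_C]
    have e2 : (Lagrange.basis (Finset.range N) w l).eval x =
        (∏ j ∈ (Finset.range N).erase l, ((j : ℝ) - l)⁻¹) * ∏ j ∈ (Finset.range N).erase l, (x + b + j + 1) := by
      rw [Lagrange.basis, Polynomial.eval_prod, ← Finset.prod_mul_distrib]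
      refine Finset.prod_congr rfl fun j _ => ?_
      rw [Lagrange.basisDivisor, Polynomial.eval_mul, Polynomial.eval_C, Polynomial.eval_sub, Polynomial.eval_X,
        Polynomial.eval_C, hw]
      congr 1
      · congr 1
        ring
      · ring
    rw [Polynomial.eval_mul, Polynomial.eval_C, e1, e2, cc_eq b N l hl',
      ← Finset.mul_prod_erase (Finset.range N) (fun l : ℕ => x + (b : ℝ) + l + 1) hl]
    have := hx l hl'
    field_simp
  rw [hfx, Finset.sum_congr rfl hterm, ← Finset.sum_mul] at h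
  rw [eq_div_iff hY, add_mul, ← h]
  ring

/-- **A1** -/
theorem a1 : S_A1 := by
  intro b N s hs
  have h := rat b N (s : ℝ) (fun l _ => by positivity)
  rw [Finset.prod_eq_zero (Finset.mem_range.2 hs) (f := fun j : ℕ => (s : ℝ) - j) (sub_self _), zero_div] at h
  have e : ∀ l ∈ Finset.range N, cc b N l / ((b : ℝ) + s + l + 1) = cc b N l / ((s : ℝ) + b + l + 1) := by
    intro l _
    rw [add_comm (b : ℝ) s]
  rw [Finset.sum_congr rfl e]
  linarith

/-- the moments of the polynomial -/
theorem moment (b N i : ℕ) :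
    ∫ w in (0 : ℝ)..1, w ^ (b + i) * pp b N w = ∑ l ∈ Finset.range N, cc b N l / ((b : ℝ) + i + l + 1) := by
  have e : ∀ w : ℝ, w ^ (b + i) * pp b N w = ∑ l ∈ Finset.range N, cc b N l * w ^ (b + i + l) := by
    intro w
    rw [pp, Finset.mul_sum]
    refine Finset.sum_congr rfl fun l _ => ?_
    rw [pow_add w (b + i) l]
    ring
  rw [intervalIntegral.integral_congr (g := fun w => ∑ l ∈ Finset.range N, cc b N l * w ^ (b + i + l))
    (fun w _ => e w), intervalIntegral.integral_finsetSum fun l _ =>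
      (Continuous.intervalIntegrable (by fun_prop) _ _)]
  refine Finset.sum_congr rfl fun l _ => ?_
  rw [intervalIntegral.integral_const_mul, integral_pow]
  push_cast
  rw [one_pow, zero_pow (by omega), sub_zero]
  ring

theorem pp_continuous (b N : ℕ) : Continuous (pp b N) := by
  unfold pp
  fun_prop

/-- **A2** -/
theorem a2 : S_A2 := by
  intro b N lam
  have e : ∀ w : ℝ, w ^ b * pp b N (lam * w) * pp b N w =
      ∑ i ∈ Finset.range N, cc b N i * lam ^ i * (w ^ (b + i) * pp b N w) := by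
    intro w
    rw [show pp b N (lam * w) = ∑ i ∈ Finset.range N, cc b N i * (lam * w) ^ i from rfl, Finset.mul_sum,
      Finset.sum_mul]
    refine Finset.sum_congr rfl fun l _ => ?_
    rw [pow_add, mul_pow]
    ring
  have hp := pp_continuous b N
  rw [intervalIntegral.integral_congr
    (g := fun w => ∑ i ∈ Finset.range N, cc b N i * lam ^ i * (w ^ (b + i) * pp b N w))
    (fun w _ => e w), intervalIntegral.integral_finsetSum fun l _ =>
      (Continuous.intervalIntegrable (by fun_prop) _ _)]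
  rw [pp, ← Finset.sum_neg_distrib]
  refine Finset.sum_congr rfl fun i hi => ?_
  rw [intervalIntegral.integral_const_mul, moment, a1 b N i (Finset.mem_range.1 hi)]
  ring

/-- **A5** -/
theorem a5 : S_A5 := by
  intro b N lam hlam
  have e : ∀ w ∈ Set.uIcc (0 : ℝ) 1, qq b N (lam * w) * qq b N w =
      (Real.sqrt lam) ^ b * (w ^ b * pp b N (lam * w) * pp b N w) := by
    intro w hw
    rw [Set.uIcc_of_le zero_le_one] at hw
    have h1 : Real.sqrt w ^ b * Real.sqrt w ^ b = w ^ b := by
      rw [← mul_pow, Real.mul_self_sqrt hw.1]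
    unfold qq
    rw [Real.sqrt_mul hlam, mul_pow, ← h1]
    ring
  rw [intervalIntegral.integral_congr e, intervalIntegral.integral_const_mul, a2, qq]
  ring

/-- the sum of the coefficients -/
theorem sumc (b N : ℕ) : ∑ l ∈ Finset.range N, cc b N l = -((N : ℝ) * (N + b)) := by
  rcases N with _ | m
  · simp
  have h := congrFun (fwdDiff_iter_choose 1 m) (m + 1 + b)
  rw [fwdDiff_iter_eq_sum_shift, Nat.choose_one_right] at h
  have h' := congrArg (fun z : ℤ => (z : ℝ)) h
  push_cast at h'
  have e : ∀ l ∈ Finset.range (m + 1), cc b (m + 1) l =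
      -((m + 1 : ℕ) : ℝ) * ((-1) ^ (m - l) * ((m.choose l : ℕ) : ℝ) * (((m + 1 + b + l).choose (m + 1) : ℕ) : ℝ)) := by
    intro l hl
    have hl' : l ≤ m := Nat.lt_succ_iff.1 (Finset.mem_range.1 hl)
    unfold cc
    have e1 : (-1 : ℝ) ^ (m + 1 + l) = -(-1) ^ (m - l) := by
      obtain ⟨k, rfl⟩ : ∃ k, m = l + k := ⟨m - l, by omega⟩
      rw [show l + k + 1 + l = 2 * l + k + 1 by omega, show l + k - l = k by omega, pow_succ, pow_add,
        pow_mul]
      norm_num
    rw [e1, Nat.add_sub_cancel]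
    ring
  rw [Finset.sum_congr rfl e, ← Finset.mul_sum]
  have e2 : ∑ l ∈ Finset.range (m + 1), ((-1 : ℝ) ^ (m - l) * ((m.choose l : ℕ) : ℝ) *
      (((m + 1 + b + l).choose (m + 1) : ℕ) : ℝ)) = ((m + 1 + b : ℕ) : ℝ) := by
    push_cast
    rw [← h']
    refine Finset.sum_congr rfl fun l _ => ?_
    simp
  rw [e2]
  push_cast
  ring

/-- **A3** -/
theorem a3' : S_A3 := by
  intro b N
  have h := a5 b N 1 zero_le_one
  have e : ∀ v ∈ Set.uIcc (0 : ℝ) 1, (qq b N v) ^ 2 = qq b N (1 * v) * qq b N v := by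
    intro v _
    rw [one_mul, sq]
  rw [intervalIntegral.integral_congr e, h, qq, pp, Real.sqrt_one, one_pow, one_mul]
  have e1 : ∀ l ∈ Finset.range N, cc b N l * (1 : ℝ) ^ l = cc b N l := by
    intro l _
    rw [one_pow, mul_one]
  rw [Finset.sum_congr rfl e1, sumc, neg_neg]

theorem a3 : S_A1 → S_A3 := fun _ => a3'

/-- the next moment -/
theorem next_moment (b N : ℕ) :
    1 + ∑ l ∈ Finset.range N, cc b N l / ((b : ℝ) + N + l + 1) =
      (N.factorial : ℝ) / ∏ l ∈ Finset.range N, ((N : ℝ) + b + l + 1) := by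
  have h := rat b N (N : ℝ) (fun l _ => by positivity)
  have e : ∀ l ∈ Finset.range N, cc b N l / ((b : ℝ) + N + l + 1) = cc b N l / ((N : ℝ) + b + l + 1) := by
    intro l _
    rw [add_comm (b : ℝ) N]
  rw [Finset.sum_congr rfl e, h]
  congr 1
  rw [← Finset.prod_range_reflect, ← Finset.prod_range_add_one_eq_factorial, Nat.cast_prod]
  refine Finset.prod_congr rfl fun j hj => ?_
  have hj' := Finset.mem_range.1 hj
  have : ((N - 1 - j : ℕ) : ℝ) = (N : ℝ) - ((j + 1 : ℕ) : ℝ) := by
    rw [← Nat.cast_sub (by omega)]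
    congr 1
    omega
  rw [this]
  ring

/-- **A4** -/
theorem a4' : S_A4 := by
  intro b N
  rcases N with _ | m
  · have e : ∀ v ∈ Set.uIcc (0 : ℝ) 1, (1 - v) * (qq b 0 v) ^ 2 = 0 := by
      intro v _
      simp [qq, pp]
    rw [intervalIntegral.integral_congr (g := fun _ => (0 : ℝ)) e]
    simp
  set N := m + 1 with hN
  have hp := pp_continuous b N
  have e : ∀ v ∈ Set.uIcc (0 : ℝ) 1, (1 - v) * (qq b N v) ^ 2 =
      (qq b N v) ^ 2 - ∑ i ∈ Finset.range N, cc b N i * (v ^ (b + (i + 1)) * pp b N v) := by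
    intro v hv
    rw [Set.uIcc_of_le zero_le_one] at hv
    have h1 : Real.sqrt v ^ b * Real.sqrt v ^ b = v ^ b := by
      rw [← mul_pow, Real.mul_self_sqrt hv.1]
    have h2 : (qq b N v) ^ 2 = v ^ b * pp b N v * pp b N v := by
      unfold qq
      rw [← h1]
      ring
    have h3 : ∑ i ∈ Finset.range N, cc b N i * (v ^ (b + (i + 1)) * pp b N v) = v * (qq b N v) ^ 2 := by
      rw [h2]
      conv_rhs => rw [mul_assoc, show pp b N v = ∑ i ∈ Finset.range N, cc b N i * v ^ i from rfl]
      rw [← show pp b N v = ∑ i ∈ Finset.range N, cc b N i * v ^ i from rfl]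
      have h4 : v * (v ^ b * (pp b N v * pp b N v)) = (v ^ (b + 1) * pp b N v) * pp b N v := by
        rw [pow_succ]
        ring
      rw [h4]
      conv_rhs => rw [show pp b N v = ∑ i ∈ Finset.range N, cc b N i * v ^ i from rfl, Finset.mul_sum]
      rw [← show pp b N v = ∑ i ∈ Finset.range N, cc b N i * v ^ i from rfl]
      refine Finset.sum_congr rfl fun i _ => ?_
      rw [← add_assoc, pow_succ, pow_add, pow_succ]
      ring
    rw [h3]
    ring
  have hq : Continuous (qq b N) := by
    unfold qq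
    fun_prop
  have hi1 : IntervalIntegrable (fun v => (qq b N v) ^ 2) volume 0 1 :=
    Continuous.intervalIntegrable (by fun_prop) _ _
  have hi2 : IntervalIntegrable (fun v => ∑ i ∈ Finset.range N, cc b N i * (v ^ (b + (i + 1)) * pp b N v))
      volume 0 1 := Continuous.intervalIntegrable (by fun_prop) _ _
  rw [intervalIntegral.integral_congr e, intervalIntegral.integral_sub hi1 hi2, a3' b N,
    intervalIntegral.integral_finsetSum fun l _ => (Continuous.intervalIntegrable (by fun_prop) _ _)]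
  have e2 : ∀ i ∈ Finset.range N, ∫ v in (0 : ℝ)..1, cc b N i * (v ^ (b + (i + 1)) * pp b N v) =
      cc b N i * (∑ l ∈ Finset.range N, cc b N l / ((b : ℝ) + (i + 1 : ℕ) + l + 1)) := by
    intro i _
    rw [intervalIntegral.integral_const_mul, moment]
  rw [Finset.sum_congr rfl e2, hN, Finset.sum_range_succ, ← hN]
  have e3 : ∀ i ∈ Finset.range m, cc b N i * (∑ l ∈ Finset.range N, cc b N l / ((b : ℝ) + (i + 1 : ℕ) + l + 1)) =
      -cc b N i := by
    intro i hi
    rw [a1 b N (i + 1) (by have := Finset.mem_range.1 hi; omega)]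
    ring
  have e4 : ∑ i ∈ Finset.range m, cc b N i = -((N : ℝ) * (N + b)) - cc b N m := by
    have := sumc b N
    rw [hN, Finset.sum_range_succ, ← hN] at this
    linarith
  have e5 : ∑ l ∈ Finset.range N, cc b N l / ((b : ℝ) + ((m + 1 : ℕ) : ℝ) + l + 1) =
      (N.factorial : ℝ) / ∏ l ∈ Finset.range N, ((N : ℝ) + b + l + 1) - 1 := by
    have := next_moment b N
    rw [← hN]
    linarith
  rw [Finset.sum_congr rfl e3, Finset.sum_neg_distrib, e4, e5]
  -- the last coefficient
  have e6 : cc b N m = -((N : ℝ) * ((N + b + m).choose N : ℝ)) := by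
    unfold cc
    rw [hN, Nat.add_sub_cancel, Nat.choose_self]
    rw [show m + 1 + m = 2 * m + 1 by omega, pow_succ, pow_mul]
    push_cast
    norm_num
    ring
  have e7 : ((N + b + m).choose N : ℝ) * (N.factorial : ℝ) = ∏ l ∈ Finset.range N, ((N : ℝ) + b + l) := by
    have h := Nat.ascFactorial_eq_factorial_mul_choose (m + b) N
    rw [Nat.ascFactorial_eq_prod_range] at h
    have h' := congrArg (fun z : ℕ => (z : ℝ)) h
    push_cast at h'
    rw [show N + b + m = m + b + N by omega, mul_comm, ← h']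
    refine Finset.prod_congr rfl fun j _ => ?_
    rw [hN]
    push_cast
    ring
  have e8 : (∏ l ∈ Finset.range N, ((N : ℝ) + b + l + 1)) * ((N : ℝ) + b) =
      (∏ l ∈ Finset.range N, ((N : ℝ) + b + l)) * (2 * N + b) := by
    have h1 := Finset.prod_range_succ (fun l : ℕ => (N : ℝ) + b + l) N
    have h2 := Finset.prod_range_succ' (fun l : ℕ => (N : ℝ) + b + l) N
    rw [h1] at h2
    push_cast at h2
    have h3 : ∀ l ∈ Finset.range N, ((N : ℝ) + b + (l + 1)) = (N : ℝ) + b + l + 1 := fun l _ => by ring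
    rw [Finset.prod_congr rfl h3] at h2
    linear_combination -h2
  have hP : (0 : ℝ) < ∏ l ∈ Finset.range N, ((N : ℝ) + b + l + 1) := Finset.prod_pos fun l _ => by positivity
  have hN0 : (0 : ℝ) < (N : ℝ) := by rw [hN]; positivity
  have hNb : (0 : ℝ) < 2 * (N : ℝ) + b := by positivity
  rw [e6]
  have e9 : (N : ℝ) * ((N + b + m).choose N : ℝ) *
      ((N.factorial : ℝ) / ∏ l ∈ Finset.range N, ((N : ℝ) + b + l + 1)) = (N : ℝ) * (N + b) / (2 * N + b) := by
    rw [mul_div_assoc', div_eq_div_iff hP.ne' hNb.ne']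
    linear_combination (N : ℝ) * (2 * N + b) * e7 - (N : ℝ) * e8
  linear_combination e9

theorem a4 : S_A1 → S_A4 := fun _ => a4'

end Pool.Agent.Q190.BA
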